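import Pool.Agent.W_a4f561_h26.Bas
import Pool.Agent.W_a4f561_E.Cnt28

/-!
MP_a4f561_co (PolylogPages): the own cost of a phase, abstract form (helper28).
A phase is a segment `A` of the route of `z` (initial segment, all vertices inner).
-/

set_option autoImplicit false

namespace Pool.Agent.W_a4f561_P28

open Pool.Agent.W_a4f561_h26

/-- A D-step inside of the segment `A`. -/
def DS {V : Type} (G : Bars V) (π : V → V) (A : Set V) (v : V) : Prop :=
  v ∈ A ∧ π v = G.lo v ∧ G.lo v ∈ A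

/-- A segment of the route of `z`. -/
structure Seg {V : Type} (G : Bars V) (π : V → V) (z : V) (A : Set V) : Prop where
  ch : Ch G π
  z_mem : z ∈ A
  orb : ∀ v ∈ A, Orb π z v
  cl : ∀ v u, v ∈ A → Orb π z u → G.t u ≤ G.t v → u ∈ A
  inn : ∀ v ∈ A, G.inn v

section Pure

variable {V : Type} {G : Bars V} {π : V → V} {z : V} {A : Set V}

/-- The rest of an orbit. -/
theorem orb_tail {f : V → V} {u v : V} (h : Orb f u v) (hne : v ≠ u) : Orb f (f u) v := by
  obtain ⟨k, rfl⟩ := h
  cases k with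
  | zero => exact absurd rfl hne
  | succ k => exact ⟨k, by rw [← Function.iterate_succ_apply]⟩

theorem seg_orb (h : Seg G π z A) {v u : V} (hv : v ∈ A) (hu : u ∈ A) (ht : G.t v ≤ G.t u) : Orb π v u :=
  orb_comp h.ch (h.orb v hv) (h.orb u hu) ht

/-- The next vertex comes before the later ones. -/
theorem seg_next (h : Seg G π z A) {v u : V} (hv : v ∈ A) (hu : u ∈ A) (ht : G.t v < G.t u) :
    π v ∈ A ∧ Orb π (π v) u ∧ G.t (π v) ≤ G.t u := by
  have h1 := orb_tail (seg_orb h hv hu (le_of_lt ht)) (fun e => absurd (e ▸ ht) (lt_irrefl _))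
  have h2 := orb_t h.ch h1
  exact ⟨h.cl u _ hu (orb_step (h.orb v hv)) h2, h1, h2⟩

theorem seg_t (h : Seg G π z A) {v : V} (hv : v ∈ A) : G.t v < G.N :=
  G.t_in v (h.inn v hv).1 (h.inn v hv).2

/-- If the first long head of a D-step meets the segment at `u`, so does every long head (squeezing). -/
theorem seg_squeeze (h : Seg G π z A) {v u : V} (hv : DS G π A v) (hu : u ∈ A)
    (hy : Orb π (G.flh v) u) {τ : ℕ} (h1 : G.tau1 v ≤ τ) (h2 : τ ≤ G.t (G.lo v)) :
    Orb π (G.ub (G.lo v) τ) u ∧ G.t (G.lo v) < G.t u := by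
  have hx := hv.2.2
  have i1 := h.inn _ hx
  have iu := h.inn _ hu
  obtain ⟨s1, s2, s3, s4, s5, s6⟩ := tau1_spec G (h.inn _ hv.1) i1
  have hN := seg_t h hx
  have hNu := seg_t h hu
  have t1 := orb_t h.ch hy
  have hxu : G.t (G.lo v) < G.t u := by omega
  have hox : Orb π (G.lo v) u := seg_orb h hx hu (le_of_lt hxu)
  have hub := ub_spec G (x := G.lo v) (τ := τ) (by omega) i1.2
  have a1 := al_lo G (h.inn _ hv.1)
  have k1 := host_t h.ch hox iu
  have k2 := host_t h.ch hy iu
  have m1 := order_one h.ch (u := G.lo v) (v := G.ub (G.lo v) τ) (τ1 := τ) (τ2 := G.t u)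
    (le_trans a1.1.1 (by omega)) hub.1.1 (by omega) (by omega)
    (by rw [host_self h.ch h2, host_self h.ch hub.1.2]; exact le_of_lt hub.2.1)
  have m2 := order_one h.ch (u := G.ub (G.lo v) τ) (v := G.flh v) (τ1 := τ) (τ2 := G.t u)
    hub.1.1 (le_trans s4.1 h1) (by omega) (by omega)
    (by rw [host_self h.ch hub.1.2, host_self h.ch (by omega)]; exact s6 τ h1 h2)
  rw [k1] at m1
  rw [k2] at m2
  have e : host G π (G.ub (G.lo v) τ) (G.t u) = u := G.r_inj (le_antisymm m2 m1)
  refine ⟨?_, hxu⟩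
  have := host_orb G π (G.ub (G.lo v) τ) (G.t u)
  rw [e] at this
  exact this

end Pure

/-- OWN COST of a phase, abstract form. `Bad w v`: the D-step `v` is bad for `w`; `Fb`: the first long head is
forced. Every event is bad for `w` or its heads have met the segment at a vertex not later than `w`. -/
theorem own_abs {V : Type} [Fintype V] [DecidableEq V] {G : Bars V} {π : V → V} {z : V} {A : Set V}
    (h : Seg G π z A) {Fb : V → Prop} {Bad : V → V → Prop} {N : ℕ}
    (hN : ∀ w ∈ A, Set.ncard {v | G.t v < G.t w ∧ Bad w v} ≤ N)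
    (hF : ∀ v v', DS G π A v → DS G π A v' → Fb v → Fb v' → G.flh v = G.flh v')
    (hR : ∀ v1 v2, DS G π A v1 → DS G π A v2 → G.t v1 < G.t v2 → G.flh v1 = G.flh v2 → ∀ τ,
      G.tau1 v1 ≤ τ → τ ≤ G.t (G.lo v1) → G.ub (G.lo v1) τ ≠ G.flh v1 → Orb π (G.ub (G.lo v1) τ) (G.lo v2))
    (hB : ∀ v w, DS G π A v → G.zz v = G.lo v → w ∈ A → G.t v < G.t w → Bad w v ∨
      ∀ τ, G.t v < τ → τ < G.tau1 v → ∃ u ∈ A, G.t u ≤ G.t w ∧ Orb π (G.ub (G.lo v) τ) u)
    (hL : ∀ v w, DS G π A v → (∀ v', DS G π A v' → G.t v' < G.t v → G.flh v' ≠ G.flh v) → ¬ Fb v → w ∈ A →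
      G.t v < G.t w → Bad w v ∨ ∃ u ∈ A, G.t u ≤ G.t w ∧ Orb π (G.flh v) u) :
    CB G π A (3 * N + 3) := by
  classical
  intro p T P hT hP hi1 hi2
  have : Nonempty V := ⟨z⟩
  choose! vv hv using hP
  have hinj : ∀ q ∈ P, ∀ q' ∈ P, vv q = vv q' → q = q' := by
    intro q hq q' hq' e
    refine hi1 q hq q' hq' ?_
    rw [(hv q hq).2.2.2.2.1, (hv q' hq').2.2.2.2.1, e]
  -- pairs whose host is outside of the segment
  have c1 : (P.filter (fun q => q.1 ∉ A)).card ≤ 1 := by
    rw [Finset.card_le_one]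
    intro q hq q' hq'
    obtain ⟨hqP, hqA⟩ := Finset.mem_filter.1 hq
    obtain ⟨hqP', hqA'⟩ := Finset.mem_filter.1 hq'
    have a1 := hv q hqP
    have a2 := hv q' hqP'
    apply hinj q hqP q' hqP'
    rw [a1.2.2.2.2.1, ← a1.2.2.2.1] at hqA
    rw [a2.2.2.2.2.1, ← a2.2.2.2.1] at hqA'
    rcases lt_trichotomy (G.t (vv q)) (G.t (vv q')) with hlt | heq | hlt
    · exact absurd (seg_next h a1.2.1 a2.2.1 hlt).1 hqA
    · exact G.t_inj heq
    · exact absurd (seg_next h a2.2.1 a1.2.1 hlt).1 hqA'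
  set P1 := P.filter (fun q => q.1 ∈ A) with hP1
  have hsplit : P.card = P1.card + (P.filter (fun q => q.1 ∉ A)).card :=
    (Finset.card_filter_add_card_filter_not _).symm
  suffices c2 : P1.card ≤ 3 * N + 2 by omega
  rcases P1.eq_empty_or_nonempty with hemp | ⟨q0, hq0⟩
  · rw [hemp]; simp
  -- the last vertex of the segment which dies before `T`
  let W : Finset V := (Set.toFinite {u : V | u ∈ A ∧ G.t u < T}).toFinset
  have hW : ∀ u, u ∈ W ↔ u ∈ A ∧ G.t u < T := by
    intro u
    simp [W]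
  obtain ⟨hq0P, hq0A⟩ := Finset.mem_filter.1 hq0
  obtain ⟨w, hw, hmax⟩ := Finset.exists_max_image W G.t ⟨q0.1, (hW _).2 ⟨hq0A, (hv q0 hq0P).2.2.2.2.2.1⟩⟩
  obtain ⟨hwA, hwT⟩ := (hW w).1 hw
  let BS : Finset V := (Set.toFinite {v : V | G.t v < G.t w ∧ Bad w v}).toFinset
  have hBS : ∀ v, v ∈ BS ↔ G.t v < G.t w ∧ Bad w v := by
    intro v
    simp [BS]
  have hBSc : BS.card ≤ N := by
    rw [← Set.ncard_eq_toFinset_card]
    exact hN w hwA
  let YF : Finset V := (Set.toFinite {y : V | ∃ v, DS G π A v ∧ Fb v ∧ G.flh v = y}).toFinset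
  have hYF : YF.card ≤ 1 := by
    rw [Finset.card_le_one]
    intro a ha b hb
    rw [Set.Finite.mem_toFinset] at ha hb
    obtain ⟨v, hv1, hv2, rfl⟩ := ha
    obtain ⟨v', hv1', hv2', rfl⟩ := hb
    exact hF v v' hv1 hv1' hv2 hv2'
  let Y : Finset V := YF ∪ BS.image G.flh
  have hY : Y.card ≤ 1 + N := by
    have d1 := Finset.card_union_le YF (BS.image G.flh)
    have d3 : (BS.image G.flh).card ≤ BS.card := Finset.card_image_le
    show (YF ∪ BS.image G.flh).card ≤ _
    omega
  have fact : ∀ q ∈ P1, DS G π A (vv q) ∧ (vv q ∈ BS ∨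
      ((∃ τ, G.tau1 (vv q) ≤ τ ∧ τ ≤ G.t (G.lo (vv q)) ∧ q.2 = G.ub (G.lo (vv q)) τ) ∧
      G.flh (vv q) ∈ Y)) := by
    intro q hq
    obtain ⟨hqP, hqA⟩ := Finset.mem_filter.1 hq
    obtain ⟨ho, hvA, hinn, hpi, hq1, hqT, ⟨τ, hτ1, hτ2, hq2⟩, hun⟩ := hv q hqP
    set v := vv q with hvdef
    rw [hq1] at hqT hτ2 hq2 hqA
    have hD : DS G π A v := ⟨hvA, hpi, hqA⟩
    have hxi := h.inn _ hqA
    have hxN := seg_t h hqA
    have hub := ub_spec G (x := G.lo v) (τ := τ) (by omega) hxi.2
    have htv := t_lo G hinn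
    have hxw := hmax _ ((hW _).2 ⟨hqA, hqT⟩)
    have hvw : G.t v < G.t w := by omega
    -- a vertex of the path on the route of `q.2` is late
    have late : ∀ u ∈ A, G.t v ≤ G.t u → Orb π q.2 u → T ≤ G.t u := by
      intro u hu htu huo
      exact hun u (orb_trans ho (seg_orb h hvA hu htu)) huo
    refine ⟨hD, ?_⟩
    by_cases hτt : τ < G.tau1 v
    · left
      rcases zz_cases G hinn with ⟨_, _, hz3⟩ | ⟨hz1, _, hz3⟩
      · have : G.tau1 v ≤ G.t v + 1 := by
          apply Nat.sInf_le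
          refine ⟨Nat.lt_succ_self _, ?_⟩
          rw [ub_lo G hinn]
          exact hz3
        omega
      · rcases hB v w hD hz1 hwA hvw with hb | hb
        · exact (hBS v).2 ⟨hvw, hb⟩
        · exfalso
          obtain ⟨u, huA, huw, huo⟩ := hb τ hτ1 hτt
          have k1 := orb_t h.ch huo
          have k2 := hub.1.2
          have k3 := late u huA (by omega) (by rw [hq2]; exact huo)
          omega
    · have hτ3 := not_lt.1 hτt
      right
      refine ⟨⟨τ, hτ3, hτ2, hq2⟩, ?_⟩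
      let W' : Finset V := (Set.toFinite {v' : V | DS G π A v' ∧ G.flh v' = G.flh v}).toFinset
      have hW' : ∀ v', v' ∈ W' ↔ DS G π A v' ∧ G.flh v' = G.flh v := by
        intro v'
        simp [W']
      obtain ⟨v0, hv0, hmin⟩ := Finset.exists_min_image W' G.t ⟨v, (hW' v).2 ⟨hD, rfl⟩⟩
      obtain ⟨hD0, hf0⟩ := (hW' v0).1 hv0
      have h0v := hmin v ((hW' v).2 ⟨hD, rfl⟩)
      by_cases hfb0 : Fb v0
      · refine Finset.mem_union_left _ ?_
        rw [Set.Finite.mem_toFinset]
        exact ⟨v0, hD0, hfb0, hf0⟩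
      · have hnew : ∀ v', DS G π A v' → G.t v' < G.t v0 → G.flh v' ≠ G.flh v0 := by
          intro v' hv' hlt' he
          have := hmin v' ((hW' v').2 ⟨hv', by rw [he, hf0]⟩)
          omega
        refine Finset.mem_union_right _ ?_
        rw [Finset.mem_image]
        refine ⟨v0, ?_, hf0⟩
        rcases hL v0 w hD0 hnew hfb0 hwA (by omega) with hb | ⟨u, huA, huw, huo⟩
        · exact (hBS v0).2 ⟨by omega, hb⟩
        · exfalso
          rw [hf0] at huo
          obtain ⟨k1, k2⟩ := seg_squeeze h hD huA huo hτ3 hτ2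
          have k3 := late u huA (by omega) (by rw [hq2]; exact k1)
          omega
  have hc1 : (P1.filter (fun q => vv q ∈ BS)).card ≤ BS.card := by
    apply Finset.card_le_card_of_injOn vv
    · intro q hq
      exact (Finset.mem_filter.1 (Finset.mem_coe.1 hq)).2
    · intro q hq q' hq' e
      exact hinj q (Finset.mem_filter.1 (Finset.mem_filter.1 (Finset.mem_coe.1 hq)).1).1 q'
        (Finset.mem_filter.1 (Finset.mem_filter.1 (Finset.mem_coe.1 hq')).1).1 e
  have hc2 : (P1.filter (fun q => ¬ vv q ∈ BS)).card ≤ 2 * Y.card := by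
    apply Finset.card_le_mul_card_image_of_maps_to (f := fun q => G.flh (vv q))
    · intro q hq
      obtain ⟨hqP, hqG⟩ := Finset.mem_filter.1 hq
      exact ((fact q hqP).2.resolve_left hqG).2
    · intro y _
      set F := (P1.filter (fun q => ¬ vv q ∈ BS)).filter (fun q => G.flh (vv q) = y) with hF'
      have hmem : ∀ q ∈ F, q ∈ P1 ∧ vv q ∉ BS ∧ G.flh (vv q) = y := by
        intro q hq
        obtain ⟨a1, a2⟩ := Finset.mem_filter.1 hq
        obtain ⟨a3, a4⟩ := Finset.mem_filter.1 a1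
        exact ⟨a3, a4, a2⟩
      have hmP : ∀ q ∈ P1, q ∈ P := fun q hq => (Finset.mem_filter.1 hq).1
      by_cases hne : F.Nonempty
      · obtain ⟨qm, hqm, hqmax⟩ := Finset.exists_max_image F (fun q => G.t (vv q)) hne
        have hsub : F ⊆ insert qm (F.filter (fun q => q.2 = y)) := by
          intro q hq
          by_cases hqq : q = qm
          · rw [hqq]; exact Finset.mem_insert_self _ _
          · refine Finset.mem_insert_of_mem (Finset.mem_filter.2 ⟨hq, ?_⟩)
            obtain ⟨b1, b2, b3⟩ := hmem q hq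
            obtain ⟨b1', b2', b3'⟩ := hmem qm hqm
            have hne' : vv q ≠ vv qm := fun e => hqq (hinj q (hmP q b1) qm (hmP qm b1') e)
            have hlt : G.t (vv q) < G.t (vv qm) :=
              lt_of_le_of_ne (hqmax q hq) (fun e => hne' (G.t_inj e))
            obtain ⟨f1, f2'⟩ := fact q b1
            obtain ⟨⟨τ, f2, f3, f4⟩, f5⟩ := f2'.resolve_left b2
            obtain ⟨f1', _⟩ := fact qm b1'
            by_contra hcon
            have hcp := hR _ _ f1 f1' hlt (by rw [b3, b3']) τ f2 f3 (by rw [← f4, b3]; exact hcon)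
            rw [← f4] at hcp
            obtain ⟨ho, hvB, hinn, hpi, hq1, hqT, _, _⟩ := hv qm (hmP qm b1')
            obtain ⟨_, _, _, _, _, _, _, hun⟩ := hv q (hmP q b1)
            have hlo : Orb π p (G.lo (vv qm)) := by
              have := orb_step ho
              rw [hpi] at this
              exact this
            have := hun _ hlo hcp
            rw [hq1] at hqT
            omega
        refine le_trans (Finset.card_le_card hsub) (le_trans (Finset.card_insert_le _ _) ?_)
        have : (F.filter (fun q => q.2 = y)).card ≤ 1 := by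
          rw [Finset.card_le_one]
          intro a ha b hb
          obtain ⟨a1, a2⟩ := Finset.mem_filter.1 ha
          obtain ⟨b1, b2⟩ := Finset.mem_filter.1 hb
          exact hi2 a (hmP a (hmem a a1).1) b (hmP b (hmem b b1).1) (by rw [a2, b2])
        omega
      · rw [Finset.not_nonempty_iff_eq_empty] at hne
        rw [hne]
        simp
  have hs2 : P1.card = (P1.filter (fun q => vv q ∈ BS)).card + (P1.filter (fun q => ¬ vv q ∈ BS)).card :=
    (Finset.card_filter_add_card_filter_not _).symm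
  omega

end Pool.Agent.W_a4f561_P28
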