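import Pool.Agent.W_a4f561_P28.Own
import Pool.Agent.W_a4f561_P31.Heads

/-!
MP_a4f561_co (PolylogPages): the own cost of a phase on the names of PDef and of helper31's `Heads` (helper28).
-/

set_option autoImplicit false

namespace Pool.Agent.W_a4f561_P28

open Pool.Agent.W_a4f561_h26
open Pool.Agent.W_a4f561_P73 (law PD LV Sh Ew LENS Kw badB badA bad bcnt)
open Pool.Agent.W_a4f561_P31 (Bp EvK HdK Met bad_of_not_met)

section Pure

variable {V : Type} {G : Bars V} {σ : St V} {D : Set V} {ω : V × Bool → Bool} {z : V}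

theorem bp_D {v : V} (h : v ∈ Bp G σ D ω z) : v ∈ D := h.2 v h.1 le_rfl

/-- Initial segment. -/
theorem bp_cl {v u : V} (h : v ∈ Bp G σ D ω z) (hu : Orb (law G σ ω) z u) (ht : G.t u ≤ G.t v) :
    u ∈ Bp G σ D ω z := ⟨hu, fun x hx hxt => h.2 x hx (hxt.trans ht)⟩

theorem bp_z (hc : Ch G (law G σ ω)) (hz : z ∈ D) : z ∈ Bp G σ D ω z := by
  refine ⟨orb_refl _ _, fun v h1 h2 => ?_⟩
  have h3 := orb_t hc h1
  rw [G.t_inj (le_antisymm h2 h3)]
  exact hz

/-- The next vertex of the phase: in the phase iff in `D`. -/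
theorem bp_next (hc : Ch G (law G σ ω)) {v : V} (h : v ∈ Bp G σ D ω z) (hD : law G σ ω v ∈ D) :
    law G σ ω v ∈ Bp G σ D ω z := by
  refine ⟨orb_step h.1, fun u hu ht => ?_⟩
  rcases le_total (G.t u) (G.t v) with h1 | h1
  · exact h.2 u hu h1
  · have h2 := orb_comp hc h.1 hu h1
    by_cases e : u = v
    · rw [e]; exact h.2 v h.1 le_rfl
    · have h3 := orb_t hc (orb_tail h2 e)
      rw [G.t_inj (le_antisymm ht h3)]
      exact hD

/-- The phase is a segment of the route of `z` in every choice function which agrees with the law on it. -/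
theorem bp_seg (hc : Ch G (law G σ ω)) (hi : ∀ v ∈ D, G.inn v) (hz : z ∈ D) {π : V → V} (hπ : Ch G π)
    (hag : ∀ v ∈ Bp G σ D ω z, π v = law G σ ω v) : Seg G π z (Bp G σ D ω z) := by
  have key : ∀ k, (∀ j, j < k → (law G σ ω)^[j] z ∈ Bp G σ D ω z) → π^[k] z = (law G σ ω)^[k] z := by
    intro k
    induction k with
    | zero => intro _; rfl
    | succ k ih =>
      intro h
      rw [Function.iterate_succ_apply', Function.iterate_succ_apply', ih fun j hj => h j (by omega)]
      exact hag _ (h k (by omega))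
  have orbL : ∀ v ∈ Bp G σ D ω z, Orb π z v := by
    intro v hv
    obtain ⟨k, hk⟩ := hv.1
    refine ⟨k, ?_⟩
    rw [key k, hk]
    intro j hj
    refine bp_cl hv ⟨j, rfl⟩ ?_
    have : Orb (law G σ ω) ((law G σ ω)^[j] z) v := by
      refine ⟨k - j, ?_⟩
      rw [← Function.iterate_add_apply, Nat.sub_add_cancel (le_of_lt hj)]
      exact hk
    exact orb_t hc this
  refine ⟨hπ, bp_z hc hz, orbL, ?_, fun v hv => hi v (bp_D hv)⟩
  intro v u hv hu ht
  obtain ⟨k, rfl⟩ := hu
  have h2 : ∀ j, j ≤ k → π^[j] z = (law G σ ω)^[j] z ∧ (law G σ ω)^[j] z ∈ Bp G σ D ω z := by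
    intro j
    induction j with
    | zero => intro _; exact ⟨rfl, bp_z hc hz⟩
    | succ j ih =>
      intro hj
      obtain ⟨e1, e2⟩ := ih (by omega)
      have e3 : π^[j + 1] z = (law G σ ω)^[j + 1] z := by
        rw [Function.iterate_succ_apply', Function.iterate_succ_apply', e1]
        exact hag _ e2
      refine ⟨e3, bp_cl hv ⟨j + 1, rfl⟩ ?_⟩
      rw [← e3]
      refine le_trans ?_ ht
      have : Orb π (π^[j + 1] z) (π^[k] z) := by
        refine ⟨k - (j + 1), ?_⟩
        rw [← Function.iterate_add_apply, Nat.sub_add_cancel hj]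
      exact orb_t hπ this
  have h3 := h2 k le_rfl
  rw [h3.1]
  exact h3.2

end Pure

variable {V : Type} [Fintype V] [DecidableEq V] {G : Bars V} {σ : St V} {D : Set V} {ω : V × Bool → Bool} {z : V}

/-- OWN COST of a phase: `Bp` = the phase of `z` in the cell `D` of the state `σ` (law with coins `ω`). In the final
choice function `π` every event which is met at `w` has its heads merged with the phase not later than `w` (`hC`),
pockets are closed (`hR`), at most one barrier is forced (`hF`). -/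
theorem own_bound (hch : ∀ ω, Ch G (law G σ ω))
    (hd : ∀ u ∈ σ.Dec, u ∉ σ.S → σ.pi u = G.lo u → G.lo u ∉ σ.S → G.t (G.lo u) < G.t (G.up u))
    (hD : ∀ v ∈ D, v ∉ σ.S) (hi : ∀ v ∈ D, G.inn v) (hz : z ∈ D) {δ : ℝ} {N : ℕ}
    (hN : ∀ w, PD G D (law G σ ω) z w → bcnt G σ D δ ω z w ≤ N)
    {π : V → V} (hπ : Ch G π) (hag : ∀ v ∈ Bp G σ D ω z, π v = law G σ ω v)
    (hF : ∀ v v', DS G π (Bp G σ D ω z) v → DS G π (Bp G σ D ω z) v' → fb G σ v → fb G σ v' →
      G.flh v = G.flh v')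
    (hR : ∀ v1 v2, DS G π (Bp G σ D ω z) v1 → DS G π (Bp G σ D ω z) v2 → G.t v1 < G.t v2 →
      G.flh v1 = G.flh v2 → ∀ τ, G.tau1 v1 ≤ τ → τ ≤ G.t (G.lo v1) → G.ub (G.lo v1) τ ≠ G.flh v1 →
      Orb π (G.ub (G.lo v1) τ) (G.lo v2))
    (hC : ∀ k v w, EvK G σ D ω z k v → PD G D (law G σ ω) z w → G.t v < G.t w → Met G σ D δ ω z k v w →
      ∀ h, HdK G k v h → ∃ u, PD G D (law G σ ω) z u ∧ G.t u ≤ G.t w ∧ Orb π h u) :
    CB G π (Bp G σ D ω z) (3 * N + 3) := by
  have hseg := bp_seg (hch ω) hi hz hπ hag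
  have ds : ∀ v, DS G π (Bp G σ D ω z) v ↔ Pool.Agent.W_a4f561_P73.DS G σ D ω z v := by
    intro v
    constructor
    · rintro ⟨h1, h2, h3⟩
      exact ⟨h1, by rw [← hag v h1]; exact h2, bp_D h3⟩
    · rintro ⟨h1, h2, h3⟩
      have h4 : v ∈ Bp G σ D ω z := h1
      refine ⟨h4, by rw [hag v h4]; exact h2, ?_⟩
      have := bp_next (hch ω) h4 (by rw [h2]; exact h3)
      rw [h2] at this
      exact this
  have ev : ∀ k v w, EvK G σ D ω z k v → w ∈ Bp G σ D ω z → G.t v < G.t w → bad G σ D δ ω z w v ∨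
      ∀ h, HdK G k v h → ∃ u ∈ Bp G σ D ω z, G.t u ≤ G.t w ∧ Orb π h u := by
    intro k v w he hw hlt
    by_cases hm : Met G σ D δ ω z k v w
    · exact Or.inr fun h hh => hC k v w he hw hlt hm h hh
    · exact Or.inl (bad_of_not_met hch he hw hlt hm)
  refine own_abs hseg (Fb := fb G σ) (Bad := fun w v => bad G σ D δ ω z w v) (fun w hw => hN w hw) hF hR ?_ ?_
  · -- beta
    intro v w hv hzz hw hlt
    have hx := hv.2.2
    have hvS : v ∉ σ.S := hD v (bp_D hv.1)
    have hvD : v ∉ σ.Dec := by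
      intro hc
      have h0 : law G σ ω v = σ.pi v := by
        unfold Pool.Agent.W_a4f561_P73.law
        rw [if_pos (show v ∈ σ.S ∪ σ.Dec from Or.inr hc)]
      have h1 : σ.pi v = G.lo v := by
        rw [← h0, ← hag v hv.1]
        exact hv.2.1
      have h2 := hd v hc hvS h1 (hD _ (bp_D hx))
      rcases zz_cases G (hseg.inn v hv.1) with ⟨h3, h4, _⟩ | ⟨_, _, h3⟩
      · rw [h3] at hzz
        rw [hzz] at h2
        omega
      · omega
    have he : EvK G σ D ω z true v := ⟨(ds v).1 hv, by rw [if_pos rfl]; exact ⟨hvD, hzz⟩⟩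
    refine (ev true v w he hw hlt).imp id fun h1 τ k1 k2 => h1 _ ?_
    unfold HdK
    rw [if_pos rfl]
    exact ⟨τ, k1, k2, rfl⟩
  · intro v w hv hnew hfb hw hlt
    have he : EvK G σ D ω z false v := by
      refine ⟨(ds v).1 hv, ?_⟩
      rw [if_neg (by decide)]
      exact ⟨fun v' hv' => hnew v' ((ds v').2 hv'), hfb⟩
    refine (ev false v w he hw hlt).imp id fun h1 => h1 _ ?_
    unfold HdK
    rw [if_neg (by decide)]

end Pool.Agent.W_a4f561_P28
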