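import Pool.Agent.W_a4f561_P28.Own2
import Pool.Agent.W_a4f561_P58.Close58
import Pool.Agent.W_a4f561_P25.Mir

/-!
MP_a4f561_co (PolylogPages): step (6) of the skeleton, the own cost of a phase on helper1's Def (helper28).
-/

set_option autoImplicit false

namespace Pool.Agent.W_a4f561_P28

open Pool.Agent.W_a4f561_h26
open Pool.Agent.W_a4f561_P73 (law PD LV Sh bcnt)
open Pool.Agent.W_a4f561_P25 (Tc Ar Area)
open Pool.Agent.W_a4f561_h1 (sG sS WInv Hd TD Pk Ob Dl Dr1 Exi)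
open Pool.Agent.W_a4f561_P25.W (wi_of)

variable {V : Type} [Fintype V] [DecidableEq V] {G : Bars V}

/-- A met event has a deadline. -/
theorem dl_of_met {σ : St V} {D : Set V} {ω : V × Bool → Bool} {z : V} {δ : ℝ} {k : Bool} {v w : V}
    (hob : Ob G σ D ω z k v) (hw : PD G D (law G σ ω) z w) (ht : G.t v < G.t w)
    (hm : ∀ y, Hd G k v y → δ ≤ Pk G σ D (Pool.Agent.W_a4f561_h1.Bp G σ D ω z) (G.t w) y) :
    ∃ d, Dl G σ D δ ω z k v d ∧ G.t d ≤ G.t w := by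
  classical
  let W : Finset V := (Set.toFinite {d : V | d ∈ Pool.Agent.W_a4f561_h1.Bp G σ D ω z ∧ G.t v < G.t d ∧
    ∀ y, Hd G k v y → δ ≤ Pk G σ D (Pool.Agent.W_a4f561_h1.Bp G σ D ω z) (G.t d) y}).toFinset
  have hW : ∀ d, d ∈ W ↔ d ∈ Pool.Agent.W_a4f561_h1.Bp G σ D ω z ∧ G.t v < G.t d ∧
      ∀ y, Hd G k v y → δ ≤ Pk G σ D (Pool.Agent.W_a4f561_h1.Bp G σ D ω z) (G.t d) y := by
    intro d
    simp [W]
  obtain ⟨d, hd, hmin⟩ := Finset.exists_min_image W G.t ⟨w, (hW w).2 ⟨hw, ht, hm⟩⟩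
  obtain ⟨hd1, hd2, hd3⟩ := (hW d).1 hd
  refine ⟨d, ⟨hob, hd1, hd2, hd3, fun w' hw' h1 h2 => ?_⟩, hmin w ((hW w).2 ⟨hw, ht, hm⟩)⟩
  by_contra hc
  push Not at hc
  have := hmin w' ((hW w').2 ⟨hw', h1, hc⟩)
  omega

theorem own_cost0 {N : ℕ} {σ σ1 : St V} {D : Set V} {z e vl : V} {ω : V × Bool → Bool} {δ : ℝ}
    (hI : WInv G σ z) (hDS : ∀ v ∈ D, v ∉ σ.S) (hz : z ∈ D) (hx : Exi D G (law G σ ω) z e)
    (hN : ∀ w, PD G D (law G σ ω) z w → bcnt G σ D δ ω z w ≤ N)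
    (hD : Dr1 G σ D ω z e vl σ1) {π : V → V} (hπ : Fin' G σ1 π)
    (hk : ∀ kd v w, Dl G σ D δ ω z kd v w → ∀ y, Hd G kd v y →
      ∃ u ∈ Pool.Agent.W_a4f561_h1.Bp G σ D ω z, G.t u ≤ G.t w ∧ Orb π y u) :
    CB G π (Pool.Agent.W_a4f561_h1.Bp G σ D ω z) (3 * N + 3) := by
  have hlf : ∀ ω, Fin' G σ (law G σ ω) := fun ω => Pool.Agent.W_a4f561_P25.W.law_fin (wi_of hI) ω
  have hch : ∀ ω, Ch G (law G σ ω) := fun ω => (hlf ω).1
  have hi : ∀ v ∈ D, G.inn v := fun v hv =>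
    ⟨fun h => hDS v hv (h ▸ hI.bot_mem), fun h => hDS v hv (h ▸ hI.top_mem)⟩
  have htl : G.t vl ≤ G.N := (Pool.Agent.W_a4f561_P25.D.dr_tN hD hDS hI.bot_mem hI.top_mem).le
  have hag : ∀ v ∈ Pool.Agent.W_a4f561_P31.Bp G σ D ω z, π v = law G σ ω v := by
    intro v hv
    rw [hπ.2 v (Or.inl ((hD.S v).2 (Or.inr hv)))]
    exact hD.piB v hv
  have htv : ∀ v ∈ Pool.Agent.W_a4f561_P31.Bp G σ D ω z, G.t v ≤ G.t vl := fun v hv =>
    ((Pool.Agent.W_a4f561_P25.W.bp_iff (hch ω) hx hD.vlB hD.vle).1 hv).2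
  have hseg := bp_seg (hch ω) hi hz hπ.1 hag
  -- hosts up to the end of the phase
  have hin : ∀ v, Orb (law G σ ω) z v → G.t v ≤ G.t vl → v ∈ Pool.Agent.W_a4f561_P31.Bp G σ D ω z :=
    fun v hv ht => ⟨hv, fun u hu hu2 => hD.vlB.2 u hu (hu2.trans ht)⟩
  have hh : ∀ τ, τ ≤ G.t vl → host G σ1.pi z τ = host G π z τ := by
    intro τ hτ
    have h1 : host G σ1.pi z τ = host G (law G σ ω) z τ := Pool.Agent.W_a4f561_P25.D.dr_host hI hD htl hτ
    have h2 : host G π z τ = host G (law G σ ω) z τ := by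
      refine host_congr25 (hch ω) hπ.1 (hτ.trans htl) fun v hv ht => ?_
      exact hag v (hin v hv (ht.le.trans hτ))
    rw [h1, h2]
  refine own_bound hch (fun u h1 h2 h3 h4 => (wi_of hI).hD u h1 h2 h3 h4) hDS hi hz hN hπ.1 hag ?_ ?_ ?_
  · -- one forced barrier
    intro v v' h1 h2 h3 h4
    have e1 : law G σ ω v = G.lo v := by rw [← hag v h1.1]; exact h1.2.1
    have e2 : law G σ ω v' = G.lo v' := by rw [← hag v' h2.1]; exact h2.2.1
    exact Pool.Agent.W_a4f561_P25.fb_oneW (wi_of hI) (hlf ω) le_rfl h1.1.1 e1 (hDS _ (bp_D h1.2.2)) h3 h2.1.1 e2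
      (hDS _ (bp_D h2.2.2)) h4
  · -- pockets
    refine Pool.Agent.W_a4f561_P58.pk_close hseg htl htv ?_
    intro y a c u hu
    have h1 : Ar G σ1.pi z (G.t vl) y a c u :=
      Pool.Agent.W_a4f561_P25.W.Ar.congr hπ.1 hD.inv.ch htl hh hu
    exact (Pool.Agent.W_a4f561_P25.D.dr_nb hI hD htl hπ).nb y a c u h1
  · -- custody
    intro k v w he hw ht hm y hy
    have hob : Ob G σ D ω z k v := by
      obtain ⟨h1, h2⟩ := he
      refine ⟨h1, ?_⟩
      cases k with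
      | true =>
        rw [if_pos rfl] at h2
        exact Or.inl ⟨rfl, h2⟩
      | false =>
        rw [if_neg (by decide)] at h2
        exact Or.inr ⟨rfl, h2⟩
    have hd : ∀ y, Hd G k v y → Pool.Agent.W_a4f561_P31.HdK G k v y := by
      intro y h1
      unfold Pool.Agent.W_a4f561_P31.HdK
      rcases h1 with ⟨h2, h3⟩ | ⟨h2, h3⟩
      · rw [if_pos h2]; exact h3
      · rw [if_neg (by rw [h2]; decide)]; exact h3
    have hd' : Hd G k v y := by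
      unfold Pool.Agent.W_a4f561_P31.HdK at hy
      cases k with
      | true =>
        rw [if_pos rfl] at hy
        exact Or.inl ⟨rfl, hy⟩
      | false =>
        rw [if_neg (by decide)] at hy
        exact Or.inr ⟨rfl, hy⟩
    obtain ⟨d, h1, h2⟩ := dl_of_met (δ := δ) hob hw ht fun y h1 => hm y (hd y h1)
    obtain ⟨u, h3, h4, h5⟩ := hk k v d h1 y hd'
    exact ⟨u, h3, h4.trans h2, h5⟩

/-- (6) OWN COST of a phase (statement of the skeleton). -/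
theorem own_cost {N : ℕ} {σ σ1 : St V} {D E : Set V} {z e vl : V} {ω : V × Bool → Bool} {δ : ℝ}
    (hI : WInv G σ z) (hDS : ∀ v ∈ D, v ∉ σ.S) (hz : z ∈ D)
    (hT : TD G σ D E δ N ω z e) (hD : Dr1 G σ D ω z e vl σ1) {π : V → V} (hπ : Fin' G σ1 π)
    (hk : ∀ b kd v w, Dl (sG G b) (sS σ b) D δ ω z kd v w → ∀ y, Hd (sG G b) kd v y →
      ∃ u ∈ Pool.Agent.W_a4f561_h1.Bp G σ D ω z, G.t u ≤ G.t w ∧ Orb π y u) (b : Bool) :
    CB (sG G b) π (Pool.Agent.W_a4f561_h1.Bp G σ D ω z) (3 * N + 3) := by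
  cases b with
  | false => exact own_cost0 hI hDS hz hT.exi hT.nD hD hπ (hk false)
  | true =>
    have hbp : Pool.Agent.W_a4f561_h1.Bp G.mir σ.mir D ω z = Pool.Agent.W_a4f561_h1.Bp G σ D ω z := by
      unfold Pool.Agent.W_a4f561_h1.Bp
      rw [Pool.Agent.W_a4f561_P25.D.law_mir hI]
      rfl
    have hT' := Pool.Agent.W_a4f561_P25.D.td_mir hI hT
    have h := own_cost0 (G := G.mir) (σ := σ.mir) (σ1 := σ1.mir) (D := D) (δ := δ) (N := N) (π := π)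
      (Pool.Agent.W_a4f561_P25.D.winv_mir hI) hDS hz hT'.exi hT'.nD (Pool.Agent.W_a4f561_P25.D.dr_mir hI hD)
      ⟨ch_mir.2 hπ.1, hπ.2⟩ (by
        intro kd v w h1 y h2
        rw [hbp]
        exact hk true kd v w h1 y h2)
    rw [hbp] at h
    exact h

end Pool.Agent.W_a4f561_P28
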